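import Mathlib

set_option autoImplicit false

open Polynomial OnePoint

namespace Pool.Agent.H78.Old.QR89

/-!
# Extended binary quadratic residue codes without a double circulant form

For the prime `p = 89` (`p ≡ 1 mod 8`, `k = (p+1)/2 = 45`) and for every element `π` of `PSL₂(89)`
which is a product of two disjoint `45`-cycles, the circulant matrices `L` and `R` obtained from an
arbitrary codeword of the extended binary quadratic residue code are both singular.

Idea of the proof. The dual of the extended code is the other extended quadratic residue code. For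
each such `π`, the word supported on one of the two cycles which is the indicator function of the
positions `i` with `i mod 3 ∈ {0, 1}` (for one half), resp. `i mod 5 ∈ {0, 1}` (for the other
half), and all its images under `π`, lie in the dual code. Hence such a word is in the kernel of
the circulant matrix. Membership in the dual is checked by computing a cyclic convolution with the
idempotent of the code; conjugation with affine maps reduces the check to the maps
`x ↦ A + B / x` with `B ∈ {1, 9}`.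
-/

/-- Coordinates `0, 1, ..., p-1, ∞` (the projective line over `GF(p)`). -/
abbrev P1 (p : ℕ) : Type := OnePoint (ZMod p)

/-- The generator polynomial `q(x) = ∏_{r ∈ Q} (x + α^r)`, `Q` the nonzero squares mod `p`. -/
noncomputable def genPoly (p : ℕ) [Fact p.Prime] {F : Type*} [Field F] (α : F) : F[X] :=
  ∏ r : ZMod p with r ≠ 0 ∧ IsSquare r, (X + C (α ^ r.val))

/-- The binary quadratic residue code of length `p`: the words `c` whose polynomial
`∑ c_i x^i` is a multiple of `q(x)`. -/
def QRCode (p : ℕ) [Fact p.Prime] {F : Type*} [Field F] [Algebra (ZMod 2) F] (α : F) :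
    Set (ZMod p → ZMod 2) :=
  {c | genPoly p α ∣ ∑ i : ZMod p, C (algebraMap (ZMod 2) F (c i)) * X ^ i.val}

/-- The extended code: an overall parity check is appended in the coordinate `∞`. -/
def ExtQRCode (p : ℕ) [Fact p.Prime] {F : Type*} [Field F] [Algebra (ZMod 2) F] (α : F) :
    Set (P1 p → ZMod 2) :=
  {c | (fun i : ZMod p => c (i : P1 p)) ∈ QRCode p α ∧ c ∞ + ∑ i : ZMod p, c (i : P1 p) = 0}

/-- Membership in `PSL₂(p)`: `π` is `i ↦ (a i + b) / (c i + d)` with `ad - bc` a nonzero
square. -/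
def InPSL (p : ℕ) [Fact p.Prime] (π : Equiv.Perm (P1 p)) : Prop :=
  ∃ a b c d : ZMod p, a * d - b * c ≠ 0 ∧ IsSquare (a * d - b * c) ∧
    π ∞ = (if c = 0 then ∞ else ((a / c : ZMod p) : P1 p)) ∧
    ∀ i : ZMod p, π (i : P1 p) =
      if c * i + d = 0 then ∞ else (((a * i + b) / (c * i + d) : ZMod p) : P1 p)

/-- `π` is the product of the two disjoint cycles `(l₀ l₁ ...)` and `(r₀ r₁ ...)` of length
`k = (p+1)/2`. -/
structure IsTwoCycles {p k : ℕ} [NeZero k] (π : Equiv.Perm (P1 p)) (l r : Fin k → P1 p) :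
    Prop where
  length_eq : 2 * k = p + 1
  inj_l : Function.Injective l
  inj_r : Function.Injective r
  disj : ∀ i j, l i ≠ r j
  cyc_l : ∀ i, π (l i) = l (i + 1)
  cyc_r : ∀ i, π (r i) = r (i + 1)

/-- The action on words: `(π c)_{π i} = c_i`. -/
def act {p : ℕ} (π : Equiv.Perm (P1 p)) (c : P1 p → ZMod 2) : P1 p → ZMod 2 :=
  fun x => c (π.symm x)

/-- The block of the array with rows `c, πc, ..., π^{k-1}c` in the columns `l₀, ..., l_{k-1}`. -/
def block {p k : ℕ} (π : Equiv.Perm (P1 p)) (l : Fin k → P1 p) (c : P1 p → ZMod 2) :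
    Matrix (Fin k) (Fin k) (ZMod 2) :=
  Matrix.of fun j i => ((act π)^[(j : ℕ)] c) (l i)

/-- `89` is prime. -/
instance : Fact (Nat.Prime 89) := ⟨by norm_num⟩

set_option linter.unusedSectionVars false
set_option linter.unnecessarySeqFocus false

section hats

variable {F : Type*} [Field F] [Algebra (ZMod 2) F] {α : F} (hα : IsPrimitiveRoot α 89)

/-- The additive character `i ↦ α^i`. -/
noncomputable def psi (hα : IsPrimitiveRoot α 89) : AddChar (ZMod 89) F :=
  AddChar.zmodChar 89 hα.pow_eq_one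

lemma psi_prim : (psi hα).IsPrimitive :=
  AddChar.zmodChar_primitive_of_primitive_root 89 hα

lemma two_eq_zero' : (2 : F) = 0 := by
  have h : algebraMap (ZMod 2) F 2 = 0 := by
    have : (2 : ZMod 2) = 0 := by decide
    rw [this, map_zero]
  rwa [map_ofNat] at h

lemma sum_psi (b : ZMod 89) : ∑ x : ZMod 89, psi hα (x * b) = if b = 0 then (1 : F) else 0 := by
  have h := AddChar.sum_mulShift (R := ZMod 89) (ψ := psi hα) b (psi_prim hα)
  rw [h]
  have : ((Fintype.card (ZMod 89) : ℕ) : F) = 1 := by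
    rw [ZMod.card]
    have h2 : (2 : F) = 0 := two_eq_zero'
    have : ((89 : ℕ) : F) = 2 * 44 + 1 := by norm_num
    rw [this, h2]; ring
  split_ifs <;> simp_all

/-- transform -/
noncomputable def hat (u : ZMod 89 → F) (j : ZMod 89) : F := ∑ i, u i * psi hα (j * i)

lemma duality (u c : ZMod 89 → F) (hu : ∀ j : ZMod 89, ¬ (j ≠ 0 ∧ IsSquare j) → hat hα u j = 0)
    (hc : ∀ j : ZMod 89, j ≠ 0 ∧ IsSquare j → hat hα c j = 0) : ∑ i, u i * c i = 0 := by
  have hm1 : IsSquare (-1 : ZMod 89) := ⟨34, by decide⟩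
  have key : ∑ j : ZMod 89, hat hα u (-j) * hat hα c j = ∑ i, u i * c i := by
    have e1 : ∀ j : ZMod 89, hat hα u (-j) * hat hα c j =
        ∑ i : ZMod 89, ∑ k : ZMod 89, u i * c k * psi hα (j * (k - i)) := by
      intro j
      simp only [hat, Finset.sum_mul_sum]
      refine Finset.sum_congr rfl fun i _ => Finset.sum_congr rfl fun k _ => ?_
      have : j * (k - i) = -j * i + j * k := by ring
      rw [this, AddChar.map_add_eq_mul]
      ring
    rw [Finset.sum_congr rfl fun j _ => e1 j, Finset.sum_comm]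
    refine Finset.sum_congr rfl fun i _ => ?_
    rw [Finset.sum_comm]
    have e2 : ∀ k : ZMod 89, ∑ j : ZMod 89, u i * c k * psi hα (j * (k - i)) =
        if k = i then u i * c k else 0 := by
      intro k
      rw [← Finset.mul_sum, sum_psi]
      by_cases h : k = i
      · simp [h]
      · simp [h, sub_eq_zero]
    rw [Finset.sum_congr rfl fun k _ => e2 k]
    simp
  rw [← key]
  refine Finset.sum_eq_zero fun j _ => ?_
  by_cases hj : j ≠ 0 ∧ IsSquare j
  · rw [hc j hj, mul_zero]
  · rw [hu (-j), zero_mul]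
    rintro ⟨h1, h2⟩
    apply hj
    refine ⟨fun h => h1 (by simp [h]), ?_⟩
    have := hm1.mul h2
    simpa using this

/-- codewords have vanishing transform on Q -/
lemma hat_code {c : ZMod 89 → ZMod 2} (hc : c ∈ QRCode 89 α) (j : ZMod 89)
    (hj : j ≠ 0 ∧ IsSquare j) : hat hα (fun i => algebraMap (ZMod 2) F (c i)) j = 0 := by
  have hroot : (genPoly 89 α).eval (α ^ j.val) = 0 := by
    unfold genPoly
    rw [eval_prod]
    refine Finset.prod_eq_zero (i := j) ?_ ?_
    · simpa using hj
    · have h2 : (2 : F) = 0 := two_eq_zero'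
      simp only [eval_add, eval_X, eval_C]
      rw [← two_mul, h2, zero_mul]
  have h2 : (∑ i : ZMod 89, C (algebraMap (ZMod 2) F (c i)) * X ^ i.val : F[X]).eval
      (α ^ j.val) = 0 := by
    obtain ⟨q, hq⟩ := (hc : genPoly 89 α ∣ _)
    rw [hq, eval_mul, hroot, zero_mul]
  rw [eval_finsetSum] at h2
  rw [hat, ← h2]
  refine Finset.sum_congr rfl fun i _ => ?_
  simp only [eval_mul, eval_C, eval_pow, eval_X]
  congr 1
  have : j * i = ((j.val * i.val : ℕ) : ZMod 89) := by simp
  rw [this, psi, AddChar.zmodChar_apply', pow_mul]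

end hats

/-! ### Bit computations -/

/-- 2^89 - 1 -/
def full : ℕ := 618970019642690137449562111

/-- bit `x` of `m` as an element of `ZMod 2` -/
def bv (m x : ℕ) : ZMod 2 := if m.testBit x then 1 else 0

lemma bv_xor (a b x : ℕ) : bv (a ^^^ b) x = bv a x + bv b x := by
  unfold bv
  rw [Nat.testBit_xor]
  cases a.testBit x <;> cases b.testBit x <;> simp <;> decide

lemma bv_two_pow (o x : ℕ) : bv (2 ^ o) x = if x = o then 1 else 0 := by
  unfold bv
  rw [Nat.testBit_two_pow]
  by_cases h : x = o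
  · simp [h]
  · simp [h, Ne.symm h]

lemma full_eq : full = 2 ^ 89 - 1 := by decide

/-- cyclic rotation of 89 bits -/
def rot (u r : ℕ) : ℕ := ((u <<< r) ||| (u >>> (89 - r))) &&& full

lemma bv_rot (u r x : ℕ) (hu : u < 2 ^ 89) (hr : r < 89) (hx : x < 89) :
    bv (rot u r) x = bv u ((x + (89 - r)) % 89) := by
  have hh : (rot u r).testBit x = u.testBit ((x + (89 - r)) % 89) := by
    unfold rot
    rw [Nat.testBit_and, Nat.testBit_or, Nat.testBit_shiftLeft, Nat.testBit_shiftRight, full_eq,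
      Nat.testBit_two_pow_sub_one]
    simp only [hx, decide_true, Bool.and_true]
    by_cases h : r ≤ x
    · have e1 : (x + (89 - r)) % 89 = x - r := by
        have : x + (89 - r) = (x - r) + 89 := by omega
        rw [this, Nat.add_mod_right, Nat.mod_eq_of_lt (by omega)]
      rw [e1]
      have e2 : u.testBit (89 - r + x) = false := by
        apply Nat.testBit_lt_two_pow
        exact lt_of_lt_of_le hu (Nat.pow_le_pow_right (by norm_num) (by omega))
      simp [h, e2]
    · have e1 : (x + (89 - r)) % 89 = 89 - r + x := by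
        rw [Nat.mod_eq_of_lt (by omega), Nat.add_comm]
      rw [e1]
      simp [h]
  unfold bv
  rw [hh]

/-- the nonzero squares modulo 89 -/
def Ql : List ℕ := [1, 2, 4, 5, 8, 9, 10, 11, 16, 17, 18, 20, 21, 22, 25, 32, 34, 36, 39, 40, 42,
  44, 45, 47, 49, 50, 53, 55, 57, 64, 67, 68, 69, 71, 72, 73, 78, 79, 80, 81, 84, 85, 87, 88]

/-- the nonsquares modulo 89 -/
def Nl : List ℕ := [3, 6, 7, 12, 13, 14, 15, 19, 23, 24, 26, 27, 28, 29, 30, 31, 33, 35, 37, 38, 41,
  43, 46, 48, 51, 52, 54, 56, 58, 59, 60, 61, 62, 63, 65, 66, 70, 74, 75, 76, 77, 82, 83, 86]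

/-- xor of the rotations of `u` by the elements of `L` -/
def convl (u : ℕ) (L : List ℕ) : ℕ := L.foldr (fun r acc => acc ^^^ rot u r) 0

lemma bv_convl (u x : ℕ) (hu : u < 2 ^ 89) (hx : x < 89) (L : List ℕ) (hL : ∀ r ∈ L, r < 89) :
    bv (convl u L) x = (L.map fun r => bv u ((x + (89 - r)) % 89)).sum := by
  induction L with
  | nil => simp [convl, bv]
  | cons r L ih =>
    have ih' := ih fun s hs => hL s (List.mem_cons_of_mem _ hs)
    have hr := hL r List.mem_cons_self
    simp only [convl, List.foldr_cons, List.map_cons, List.sum_cons] at ih' ⊢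
    rw [bv_xor, ih', bv_rot u r x hu hr hx, add_comm]

/-- code of points: `89` stands for infinity -/
def dec (n : ℕ) : P1 89 := if n = 89 then ∞ else ((n : ZMod 89) : P1 89)

/-- the map `x ↦ A + B / x` on codes -/
def step (A B x : ℕ) : ℕ :=
  if x = 0 then 89 else if x = 89 then A else (A + B * (x ^ 87 % 89)) % 89

/-- orbit list -/
def orbL (A B : ℕ) : ℕ → ℕ → List ℕ
  | 0, _ => []
  | n + 1, x => x :: orbL A B n (step A B x)

/-- selection of indices -/
def cond (m a i : ℕ) : Bool := (i % m == a) || (i % m == (a + 1) % m)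

/-- mask of the selected points -/
def maskSel (m a : ℕ) : ℕ → List ℕ → ℕ
  | _, [] => 0
  | i, x :: L => if cond m a i then maskSel m a (i + 1) L ^^^ 2 ^ x else maskSel m a (i + 1) L

/-- reduction of an extended word to a word of length 89 -/
def uOf (m : ℕ) : ℕ := if m.testBit 89 then (m &&& full) ^^^ full else m &&& full

/-- certificate test -/
def certs (m : ℕ) (T o : List ℕ) : Bool :=
  (List.range m).all fun a => convl (uOf (maskSel m a 0 o)) T == uOf (maskSel m a 0 o)

/-- both tests -/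
def certOK (o : List ℕ) : Bool :=
  (certs 3 Ql o || certs 5 Ql o) && (certs 3 Nl o || certs 5 Nl o)

/-- check for one normal form, given the list of the orbit of infinity -/
def checkO (A B : ℕ) (o : List ℕ) : Bool :=
  if o.tail.contains 89 || !((step A B)^[45] 89 == 89) then true
  else
    (List.range 89).any fun y => !(o.contains y) && certOK (orbL A B 45 y) && certOK o

/-- check -/
def checkNF (A B : ℕ) : Bool := checkO A B (orbL A B 45 89)

lemma check_all : ∀ A ∈ List.range 89, ∀ B ∈ [1, 9], checkNF A B = true := by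
  decide +kernel

/-! ### Character sums over squares and nonsquares -/

/-- nonzero squares -/
def Qs : Finset (ZMod 89) := Finset.univ.filter fun j => j ≠ 0 ∧ IsSquare j

/-- nonsquares -/
def Ns : Finset (ZMod 89) := Finset.univ.filter fun j => j ≠ 0 ∧ ¬ IsSquare j

lemma Qs_eq : Qs = (Ql.map (Nat.cast : ℕ → ZMod 89)).toFinset := by decide +kernel

lemma Ns_eq : Ns = (Nl.map (Nat.cast : ℕ → ZMod 89)).toFinset := by decide +kernel

lemma sum_Ql {M : Type*} [AddCommMonoid M] (g : ZMod 89 → M) :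
    (Ql.map fun r : ℕ => g (r : ZMod 89)).sum = ∑ r ∈ Qs, g r := by
  rw [Qs_eq, List.sum_toFinset _ (by decide +kernel), List.map_map]
  rfl

lemma sum_Nl {M : Type*} [AddCommMonoid M] (g : ZMod 89 → M) :
    (Nl.map fun r : ℕ => g (r : ZMod 89)).sum = ∑ r ∈ Ns, g r := by
  rw [Ns_eq, List.sum_toFinset _ (by decide +kernel), List.map_map]
  rfl

section sums

variable {F : Type*} [Field F] [Algebra (ZMod 2) F] {α : F} (hα : IsPrimitiveRoot α 89)

/-- sum over squares -/
noncomputable def gQ (j : ZMod 89) : F := ∑ r ∈ Qs, psi hα (j * r)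

/-- sum over nonsquares -/
noncomputable def gN (j : ZMod 89) : F := ∑ r ∈ Ns, psi hα (j * r)

lemma add_self' (x : F) : x + x = 0 := by
  rw [← two_mul, two_eq_zero', zero_mul]

lemma g_sum (j : ZMod 89) : 1 + gQ hα j + gN hα j = if j = 0 then 1 else 0 := by
  have h := sum_psi hα j
  rw [← h]
  have hdisj : Disjoint Qs Ns := by
    rw [Finset.disjoint_left]
    intro x hx hx'
    simp only [Qs, Ns, Finset.mem_filter] at hx hx'
    exact hx'.2.2 hx.2.2
  have huniv : (Finset.univ : Finset (ZMod 89)) = insert 0 (Qs ∪ Ns) := by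
    ext x
    simp only [Qs, Ns, Finset.mem_univ, Finset.mem_insert, Finset.mem_union, Finset.mem_filter,
      true_and, true_iff]
    tauto
  rw [huniv, Finset.sum_insert (by simp [Qs, Ns]), Finset.sum_union hdisj]
  simp only [zero_mul, AddChar.map_zero_eq_one, gQ, gN, add_assoc]
  congr 2 <;> exact Finset.sum_congr rfl fun r _ => by rw [mul_comm]

lemma gQ_zero : gQ hα 0 = 0 := by
  have : Qs.card = 44 := by decide +kernel
  have h2 : (2 : F) = 0 := two_eq_zero'
  simp only [gQ, zero_mul, AddChar.map_zero_eq_one, Finset.sum_const, this, nsmul_eq_mul, mul_one]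
  have : ((44 : ℕ) : F) = 2 * 22 := by norm_num
  rw [this, h2, zero_mul]

lemma gN_zero : gN hα 0 = 0 := by
  have h := g_sum hα 0
  rw [gQ_zero] at h
  simpa using h

lemma mul_nonsq {a b : ZMod 89} (ha : a ≠ 0) (ha' : ¬ IsSquare a) (hb' : ¬ IsSquare b) :
    IsSquare (a * b) := by
  have hb : b ≠ 0 := fun h => hb' (by simp [h])
  have h1 := quadraticChar_neg_one_iff_not_isSquare.mpr ha'
  have h2 := quadraticChar_neg_one_iff_not_isSquare.mpr hb'
  rw [← quadraticChar_one_iff_isSquare (mul_ne_zero ha hb), map_mul, h1, h2]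
  norm_num

lemma gQ_nonsq {j : ZMod 89} (hj : j ≠ 0) (hj' : ¬ IsSquare j) : gQ hα j = gN hα 1 := by
  unfold gQ gN
  refine Finset.sum_bij' (fun r _ => j * r) (fun s _ => j⁻¹ * s) ?_ ?_ ?_ ?_ ?_
  · intro r hr
    simp only [Qs, Ns, Finset.mem_filter, Finset.mem_univ, true_and] at hr ⊢
    refine ⟨mul_ne_zero hj hr.1, fun h => hj' ?_⟩
    have := h.div hr.2
    rwa [mul_div_assoc, div_self hr.1, mul_one] at this
  · intro r hr
    simp only [Qs, Ns, Finset.mem_filter, Finset.mem_univ, true_and] at hr ⊢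
    refine ⟨mul_ne_zero (inv_ne_zero hj) hr.1, mul_nonsq (inv_ne_zero hj) ?_ hr.2⟩
    rwa [isSquare_inv]
  · intro r _
    rw [← mul_assoc, inv_mul_cancel₀ hj, one_mul]
  · intro r _
    rw [← mul_assoc, mul_inv_cancel₀ hj, one_mul]
  · intro r _
    rw [one_mul]

lemma gN_nonsq {j : ZMod 89} (hj : j ≠ 0) (hj' : ¬ IsSquare j) : gN hα j = gQ hα 1 := by
  have h1 := g_sum hα j
  have h2 := g_sum hα 1
  rw [if_neg hj, gQ_nonsq hα hj hj'] at h1
  rw [if_neg one_ne_zero] at h2
  have : (1 + gN hα 1 + gN hα j) - (1 + gQ hα 1 + gN hα 1) = 0 := by rw [h1, h2, sub_zero]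
  have h3 : gN hα j - gQ hα 1 = 0 := by rw [← this]; ring
  exact sub_eq_zero.mp h3

lemma gQ_one : gQ hα 1 = 0 ∨ gQ hα 1 = 1 := by
  have : CharP F 2 := charP_of_injective_algebraMap (algebraMap (ZMod 2) F).injective 2
  have : ExpChar F 2 := ExpChar.prime Nat.prime_two
  have h : gQ hα 1 ^ 2 = gQ hα 1 := by
    unfold gQ
    rw [sum_pow_char (R := F) 2]
    refine Finset.sum_bij' (fun r _ => 2 * r) (fun s _ => 2⁻¹ * s) ?_ ?_ ?_ ?_ ?_
    · intro r hr
      simp only [Qs, Finset.mem_filter, Finset.mem_univ, true_and] at hr ⊢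
      exact ⟨mul_ne_zero (by decide) hr.1, IsSquare.mul ⟨25, by decide⟩ hr.2⟩
    · intro r hr
      simp only [Qs, Finset.mem_filter, Finset.mem_univ, true_and] at hr ⊢
      exact ⟨mul_ne_zero (inv_ne_zero (by decide)) hr.1,
        IsSquare.mul (isSquare_inv.mpr ⟨25, by decide⟩) hr.2⟩
    · intro r _
      rw [← mul_assoc, inv_mul_cancel₀ (by decide), one_mul]
    · intro r _
      rw [← mul_assoc, mul_inv_cancel₀ (by decide), one_mul]
    · intro r _
      rw [pow_two, ← AddChar.map_add_eq_mul]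
      congr 1
      ring
  have h2 : gQ hα 1 * (gQ hα 1 - 1) = 0 := by
    rw [mul_sub, mul_one, ← pow_two, h, sub_self]
  rcases mul_eq_zero.mp h2 with h3 | h3
  · exact Or.inl h3
  · exact Or.inr (sub_eq_zero.mp h3)

/-- a word fixed by convolution -/
lemma hat_of_conv (S : Finset (ZMod 89)) (U : ZMod 89 → F) (hU : ∀ x, U x = ∑ r ∈ S, U (x - r))
    (j : ZMod 89) : hat hα U j = (∑ r ∈ S, psi hα (j * r)) * hat hα U j := by
  have e1 : hat hα U j = ∑ x, ∑ r ∈ S, U (x - r) * psi hα (j * x) := by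
    unfold hat
    refine Finset.sum_congr rfl fun x _ => ?_
    conv_lhs => rw [hU x]
    rw [Finset.sum_mul]
  have e2 : ∀ r, ∑ x, U (x - r) * psi hα (j * x) = psi hα (j * r) * hat hα U j := by
    intro r
    unfold hat
    rw [Finset.mul_sum]
    refine Fintype.sum_equiv (Equiv.subRight r) _ _ fun x => ?_
    simp only [Equiv.subRight_apply]
    have : j * x = j * r + j * (x - r) := by ring
    rw [this, AddChar.map_add_eq_mul]
    ring
  conv_lhs => rw [e1]
  rw [Finset.sum_comm, Finset.sum_mul]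
  exact Finset.sum_congr rfl fun r _ => e2 r

lemma orth_of_conv (U c : ZMod 89 → ZMod 2)
    (hU : (gQ hα 1 = 1 ∧ ∀ x, U x = ∑ r ∈ Qs, U (x - r)) ∨
      (gQ hα 1 = 0 ∧ ∀ x, U x = ∑ r ∈ Ns, U (x - r)))
    (hc : ∀ j : ZMod 89, j ≠ 0 ∧ IsSquare j → hat hα (fun i => algebraMap (ZMod 2) F (c i)) j = 0) :
    ∑ x, U x * c x = 0 := by
  apply (algebraMap (ZMod 2) F).injective
  rw [map_zero, map_sum]
  simp only [map_mul]
  refine duality hα (fun x => algebraMap (ZMod 2) F (U x)) _ ?_ hc
  intro j hj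
  rcases hU with ⟨h1, h2⟩ | ⟨h1, h2⟩
  · rw [hat_of_conv hα Qs]
    · change gQ hα j * _ = 0
      by_cases hj0 : j = 0
      · rw [hj0, gQ_zero, zero_mul]
      · have hj' : ¬ IsSquare j := fun h => hj ⟨hj0, h⟩
        have h3 := g_sum hα 1
        rw [if_neg one_ne_zero, h1, add_self', zero_add] at h3
        rw [gQ_nonsq hα hj0 hj', h3, zero_mul]
    · intro x
      conv_lhs => rw [h2 x]
      rw [map_sum]
  · rw [hat_of_conv hα Ns]
    · change gN hα j * _ = 0
      by_cases hj0 : j = 0
      · rw [hj0, gN_zero, zero_mul]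
      · have hj' : ¬ IsSquare j := fun h => hj ⟨hj0, h⟩
        rw [gN_nonsq hα hj0 hj', h1, zero_mul]
    · intro x
      conv_lhs => rw [h2 x]
      rw [map_sum]

end sums

/-! ### From bit masks to sums -/

lemma uOf_lt (m : ℕ) : uOf m < 2 ^ 89 := by
  unfold uOf
  have h1 : m &&& full < 2 ^ 89 := by
    rw [full_eq]
    exact Nat.and_lt_two_pow _ (by norm_num)
  split_ifs
  · exact Nat.xor_lt_two_pow h1 (by rw [full_eq]; norm_num)
  · exact h1

lemma bv_uOf (m x : ℕ) (hx : x < 89) : bv (uOf m) x = bv m x + bv m 89 := by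
  unfold uOf bv
  by_cases h : m.testBit 89
  · simp only [h, if_true, Nat.testBit_xor, Nat.testBit_and, full_eq, Nat.testBit_two_pow_sub_one,
      hx, decide_true, Bool.and_true]
    cases m.testBit x <;> simp <;> decide
  · simp only [h, Bool.false_eq_true, if_false, Nat.testBit_and, full_eq,
      Nat.testBit_two_pow_sub_one, hx, decide_true, Bool.and_true, add_zero]

/-- weights -/
def wt (m a : ℕ) (c : P1 89 → ZMod 2) : ℕ → List ℕ → ZMod 2
  | _, [] => 0
  | i, x :: L => (if cond m a i then c (dec x) else 0) + wt m a c (i + 1) L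

lemma sum_mask (m a : ℕ) (c : P1 89 → ZMod 2) (L : List ℕ) (hL : ∀ x ∈ L, x ≤ 89) (i : ℕ) :
    ∑ x ∈ Finset.range 90, bv (maskSel m a i L) x * c (dec x) = wt m a c i L := by
  induction L generalizing i with
  | nil => simp [maskSel, wt, bv]
  | cons y L ih =>
    have ih' := ih (fun x hx => hL x (List.mem_cons_of_mem _ hx)) (i + 1)
    have hy := hL y List.mem_cons_self
    simp only [maskSel, wt]
    by_cases hc : cond m a i = true
    · simp only [hc, if_true, bv_xor, add_mul, Finset.sum_add_distrib, ih', bv_two_pow]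
      have e : ∑ x ∈ Finset.range 90, (if x = y then (1 : ZMod 2) else 0) * c (dec x) =
          c (dec y) := by
        simp only [ite_mul, one_mul, zero_mul]
        rw [Finset.sum_ite_eq' (Finset.range 90) y (fun x => c (dec x)),
          if_pos (Finset.mem_range.mpr (by omega))]
      rw [e, add_comm]
    · simp only [hc, Bool.false_eq_true, if_false, ih', zero_add]

lemma step_le (A B x : ℕ) (hA : A < 89) : step A B x ≤ 89 := by
  unfold step
  split_ifs
  · exact le_rfl
  · omega
  · exact (Nat.mod_lt _ (by norm_num)).le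

lemma orbL_le (A B : ℕ) (hA : A < 89) (n x : ℕ) (hx : x ≤ 89) : ∀ y ∈ orbL A B n x, y ≤ 89 := by
  induction n generalizing x with
  | zero => simp [orbL]
  | succ n ih =>
    intro y hy
    rcases List.mem_cons.mp hy with rfl | h
    · exact hx
    · exact ih _ (step_le A B x hA) y h

lemma wt_orbL (m a A B : ℕ) (c : P1 89 → ZMod 2) (n i x : ℕ) :
    wt m a c i (orbL A B n x) =
      ∑ t ∈ Finset.range n, if cond m a (i + t) then c (dec ((step A B)^[t] x)) else 0 := by
  induction n generalizing i x with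
  | zero => simp [orbL, wt]
  | succ n ih =>
    rw [Finset.sum_range_succ']
    simp only [orbL, wt, ih, Function.iterate_succ_apply, Function.iterate_zero_apply, add_zero]
    rw [add_comm]
    congr 1
    refine Finset.sum_congr rfl fun t _ => ?_
    rw [add_assoc, add_comm 1 t]

lemma sum_zmod89 {M : Type*} [AddCommMonoid M] (g : ℕ → M) :
    ∑ x : ZMod 89, g x.val = ∑ x ∈ Finset.range 89, g x := by
  rw [Finset.sum_range]
  rfl

section certsec

variable {F : Type*} [Field F] [Algebra (ZMod 2) F] {α : F} (hα : IsPrimitiveRoot α 89)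

/-- what we use about a codeword -/
def Good (c : P1 89 → ZMod 2) : Prop :=
  (∀ j : ZMod 89, j ≠ 0 ∧ IsSquare j →
    hat hα (fun i => algebraMap (ZMod 2) F (c (i : P1 89))) j = 0) ∧
  c ∞ + ∑ i : ZMod 89, c (i : P1 89) = 0

lemma conv_sem (u : ℕ) (hu : u < 2 ^ 89) (T : List ℕ) (hT : ∀ r ∈ T, r < 89)
    (h : convl u T = u) (x : ZMod 89) :
    bv u x.val = (T.map fun r : ℕ => (fun y : ZMod 89 => bv u (x - y).val) (r : ZMod 89)).sum := by
  have hx : x.val < 89 := ZMod.val_lt x
  have h1 := bv_convl u x.val hu hx T hT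
  rw [h] at h1
  rw [h1]
  congr 1
  refine List.map_congr_left fun r hr => ?_
  have hr' := hT r hr
  simp only
  congr 1
  have : x - (r : ZMod 89) = ((x.val + (89 - r) : ℕ) : ZMod 89) := by
    have h89 : ((89 : ℕ) : ZMod 89) = 0 := ZMod.natCast_self 89
    rw [Nat.cast_add, Nat.cast_sub hr'.le, h89, ZMod.natCast_zmod_val, zero_sub, sub_eq_add_neg]
  rw [this, ZMod.val_natCast]

lemma cert_sound {m : ℕ} {A B x₀ : ℕ} (hA : A < 89) (hx₀ : x₀ ≤ 89) (T : List ℕ)
    (hT : (gQ hα 1 = 1 ∧ T = Ql) ∨ (gQ hα 1 = 0 ∧ T = Nl))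
    (hcert : certs m T (orbL A B 45 x₀) = true) {c : P1 89 → ZMod 2} (hc : Good hα c)
    (a : ℕ) (ha : a < m) :
    ∑ t ∈ Finset.range 45, (if cond m a t then c (dec ((step A B)^[t] x₀)) else 0) = 0 := by
  have h1 : ∑ t ∈ Finset.range 45, (if cond m a t then c (dec ((step A B)^[t] x₀)) else 0) =
      wt m a c 0 (orbL A B 45 x₀) := by
    rw [wt_orbL]
    simp
  rw [h1, ← sum_mask m a c _ (orbL_le A B hA 45 x₀ hx₀)]
  set M := maskSel m a 0 (orbL A B 45 x₀) with hM
  have hu : convl (uOf M) T = uOf M := by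
    unfold certs at hcert
    rw [List.all_eq_true] at hcert
    have := hcert a (List.mem_range.mpr ha)
    simpa using this
  rw [Finset.sum_range_succ]
  have hd : dec 89 = ∞ := by simp [dec]
  have hinf : c ∞ = ∑ i : ZMod 89, c (i : P1 89) := by
    have := hc.2
    exact CharTwo.add_eq_zero.mp this
  rw [hd, hinf]
  have h2 : ∑ x ∈ Finset.range 89, bv M x * c (dec x) =
      ∑ x : ZMod 89, bv M x.val * c (x : P1 89) := by
    rw [← sum_zmod89 (fun x => bv M x * c (dec x))]
    refine Finset.sum_congr rfl fun x _ => ?_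
    have hx : x.val < 89 := ZMod.val_lt x
    have : dec x.val = (x : P1 89) := by
      unfold dec
      rw [if_neg (by omega), ZMod.natCast_zmod_val]
    rw [this]
  rw [h2, Finset.mul_sum, ← Finset.sum_add_distrib]
  have h3 : ∀ x : ZMod 89, bv M x.val * c (x : P1 89) + bv M 89 * c (x : P1 89) =
      bv (uOf M) x.val * c (x : P1 89) := by
    intro x
    rw [bv_uOf M x.val (ZMod.val_lt x), add_mul]
  rw [Finset.sum_congr rfl fun x _ => h3 x]
  refine orth_of_conv hα (fun x => bv (uOf M) x.val) (fun x => c (x : P1 89)) ?_ hc.1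
  rcases hT with ⟨h, rfl⟩ | ⟨h, rfl⟩
  · left
    refine ⟨h, fun x => ?_⟩
    have := conv_sem (uOf M) (uOf_lt M) Ql (by decide +kernel) hu x
    rw [this, sum_Ql (fun y : ZMod 89 => bv (uOf M) (x - y).val)]
  · right
    refine ⟨h, fun x => ?_⟩
    have := conv_sem (uOf M) (uOf_lt M) Nl (by decide +kernel) hu x
    rw [this, sum_Nl (fun y : ZMod 89 => bv (uOf M) (x - y).val)]

end certsec

/-! ### Normal forms `x ↦ A + B / x` -/

/-- `π` is the map `x ↦ A + B / x`. -/
def IsNF (A B : ZMod 89) (π : Equiv.Perm (P1 89)) : Prop :=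
  π ∞ = (A : P1 89) ∧ π ((0 : ZMod 89) : P1 89) = ∞ ∧
    ∀ i : ZMod 89, i ≠ 0 → π (i : P1 89) = ((A + B / i : ZMod 89) : P1 89)

lemma dec_coe (n : ℕ) (h : n < 89) : dec n = ((n : ZMod 89) : P1 89) := by
  unfold dec
  rw [if_neg (by omega)]

lemma step_sound {A B : ℕ} (hA : A < 89) {π : Equiv.Perm (P1 89)}
    (h : IsNF (A : ZMod 89) (B : ZMod 89) π) (x : ℕ) (hx : x ≤ 89) :
    dec (step A B x) = π (dec x) := by
  obtain ⟨h1, h2, h3⟩ := h
  by_cases hx0 : x = 0
  · subst hx0
    rw [dec_coe 0 (by norm_num), Nat.cast_zero, h2]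
    simp [step, dec]
  by_cases hx9 : x = 89
  · subst hx9
    have e1 : dec 89 = ∞ := by simp [dec]
    rw [e1, h1]
    have e2 : step A B 89 = A := by simp [step]
    rw [e2, dec_coe A hA]
  · have hx' : x < 89 := by omega
    rw [dec_coe x hx']
    have hne : (x : ZMod 89) ≠ 0 := by
      intro h0
      rw [ZMod.natCast_eq_zero_iff] at h0
      have := Nat.le_of_dvd (by omega) h0
      omega
    rw [h3 _ hne]
    have e2 : step A B x = (A + B * (x ^ 87 % 89)) % 89 := by simp [step, hx0, hx9]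
    rw [e2, dec_coe _ (Nat.mod_lt _ (by norm_num))]
    have h88 : (x : ZMod 89) ^ 88 = 1 := ZMod.pow_card_sub_one_eq_one hne
    have h87 : (x : ZMod 89) ^ 87 = (x : ZMod 89)⁻¹ :=
      eq_inv_of_mul_eq_one_left (by rw [← pow_succ, h88])
    rw [ZMod.natCast_mod, Nat.cast_add, Nat.cast_mul, ZMod.natCast_mod, Nat.cast_pow, h87,
      div_eq_mul_inv]

lemma iter_le {A B : ℕ} (hA : A < 89) (x : ℕ) (hx : x ≤ 89) (t : ℕ) :
    (step A B)^[t] x ≤ 89 := by
  induction t with
  | zero => exact hx
  | succ t _ =>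
    rw [Function.iterate_succ_apply']
    exact step_le _ _ _ hA

lemma iter_sound {A B : ℕ} (hA : A < 89) {π : Equiv.Perm (P1 89)}
    (h : IsNF (A : ZMod 89) (B : ZMod 89) π) (x : ℕ) (hx : x ≤ 89) (t : ℕ) :
    dec ((step A B)^[t] x) = π^[t] (dec x) := by
  induction t with
  | zero => rfl
  | succ t ih =>
    rw [Function.iterate_succ_apply', Function.iterate_succ_apply', ← ih,
      step_sound hA h _ (iter_le hA x hx t)]

lemma dec_inj {x y : ℕ} (hx : x ≤ 89) (hy : y ≤ 89) (h : dec x = dec y) : x = y := by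
  by_cases hx9 : x = 89
  · by_cases hy9 : y = 89
    · omega
    · exfalso
      rw [dec_coe y (by omega)] at h
      subst hx9
      have e1 : dec 89 = ∞ := by simp [dec]
      rw [e1] at h
      exact OnePoint.infty_ne_coe _ h
  · by_cases hy9 : y = 89
    · exfalso
      rw [dec_coe x (by omega)] at h
      subst hy9
      have e1 : dec 89 = ∞ := by simp [dec]
      rw [e1] at h
      exact OnePoint.coe_ne_infty _ h
    · rw [dec_coe x (by omega), dec_coe y (by omega), OnePoint.coe_eq_coe] at h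
      have h' := congrArg ZMod.val h
      rwa [ZMod.val_natCast, ZMod.val_natCast, Nat.mod_eq_of_lt (by omega),
        Nat.mod_eq_of_lt (by omega)] at h'

lemma cyc_iter {π : Equiv.Perm (P1 89)} {l : Fin 45 → P1 89} (h : ∀ i, π (l i) = l (i + 1))
    (i : Fin 45) (t : ℕ) : π^[t] (l i) = l (i + Fin.ofNat 45 t) := by
  induction t with
  | zero => simp
  | succ t ih =>
    rw [Function.iterate_succ_apply', ih, h]
    congr 1
    rw [add_assoc]
    congr 1
    apply Fin.ext
    simp [Fin.val_add]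

lemma symm_iter {π : Equiv.Perm (P1 89)} {l : Fin 45 → P1 89} (h : ∀ i, π (l i) = l (i + 1))
    (i : Fin 45) (t : ℕ) : (π.symm)^[t] (l (i + Fin.ofNat 45 t)) = l i := by
  rw [← cyc_iter h]
  have : Function.LeftInverse (π.symm)^[t] π^[t] := Function.LeftInverse.iterate π.symm_apply_apply t
  exact this _

lemma act_iter {p : ℕ} (π : Equiv.Perm (P1 p)) (c : P1 p → ZMod 2) (t : ℕ) (x : P1 p) :
    ((act π)^[t] c) x = c ((π.symm)^[t] x) := by
  induction t generalizing x with
  | zero => rfl
  | succ t ih =>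
    rw [Function.iterate_succ_apply', act, ih, ← Function.iterate_succ_apply]

lemma cond_shift {m : ℕ} (hm : m = 3 ∨ m = 5) (t j : ℕ) :
    cond m 0 ((t + j) % 45) = cond m ((m - j % m) % m) t := by
  unfold cond
  rw [Bool.eq_iff_iff]
  simp only [Bool.or_eq_true, beq_iff_eq]
  rcases hm with rfl | rfl
  · omega
  · omega

lemma block_singular {π : Equiv.Perm (P1 89)} {l : Fin 45 → P1 89}
    (hcyc : ∀ i, π (l i) = l (i + 1)) (c : P1 89 → ZMod 2) (i₀ : Fin 45) {m : ℕ}
    (hm : m = 3 ∨ m = 5)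
    (h : ∀ a < m, ∑ t ∈ Finset.range 45, (if cond m a t then c (π^[t] (l i₀)) else 0) = 0) :
    ¬ IsUnit (block π l c) := by
  rw [Matrix.isUnit_iff_isUnit_det, isUnit_iff_ne_zero, not_not]
  rw [← Matrix.exists_mulVec_eq_zero_iff]
  refine ⟨fun i => if cond m 0 (i - i₀).val then 1 else 0, ?_, ?_⟩
  · intro h0
    have := congrFun h0 i₀
    simp [cond] at this
  · funext j
    simp only [Matrix.mulVec, dotProduct, block, Matrix.of_apply, Pi.zero_apply]
    have e1 : ∑ i : Fin 45, (act π)^[(j : ℕ)] c (l i) *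
        (if cond m 0 (i - i₀).val = true then (1 : ZMod 2) else 0) =
        ∑ t : Fin 45, (if cond m ((m - j.val % m) % m) t.val then c (π^[t.val] (l i₀)) else 0) := by
      refine Fintype.sum_equiv (Equiv.subRight (i₀ + j)) _ _ fun i => ?_
      simp only [Equiv.subRight_apply]
      set t := i - (i₀ + j) with ht
      have hi : i = i₀ + t + j := by rw [ht]; abel
      have e2 : (act π)^[(j : ℕ)] c (l i) = c (π^[t.val] (l i₀)) := by
        rw [act_iter, cyc_iter hcyc]
        have : i = (i₀ + t) + Fin.ofNat 45 j.val := by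
          rw [hi]; congr 1; apply Fin.ext; simp
        rw [this, symm_iter hcyc]
        congr 2
        congr 1
        apply Fin.ext; simp
      rw [e2]
      have e3 : cond m 0 (i - i₀).val = cond m ((m - j.val % m) % m) t.val := by
        rw [← cond_shift hm]
        congr 1
        have : i - i₀ = t + j := by rw [ht]; abel
        rw [this, Fin.val_add]
      rw [e3]
      split_ifs <;> simp
    have e4 := h ((m - j.val % m) % m) (Nat.mod_lt _ (by rcases hm with rfl | rfl <;> norm_num))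
    rw [Finset.sum_range] at e4
    rw [e1, e4]

lemma mem_orbL {A B n x y : ℕ} : y ∈ orbL A B n x ↔ ∃ t < n, (step A B)^[t] x = y := by
  induction n generalizing x with
  | zero => simp [orbL]
  | succ n ih =>
    simp only [orbL, List.mem_cons, ih]
    constructor
    · rintro (rfl | ⟨t, ht, h⟩)
      · exact ⟨0, by omega, rfl⟩
      · exact ⟨t + 1, by omega, by rw [Function.iterate_succ_apply, h]⟩
    · rintro ⟨t, ht, h⟩
      rcases t with _ | t
      · left; exact h.symm
      · right
        exact ⟨t, by omega, by rw [← h, Function.iterate_succ_apply]⟩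

lemma mem_tail_orbL {A B n x y : ℕ} :
    y ∈ (orbL A B (n + 1) x).tail ↔ ∃ t, 0 < t ∧ t < n + 1 ∧ (step A B)^[t] x = y := by
  simp only [orbL, List.tail_cons, mem_orbL]
  constructor
  · rintro ⟨t, ht, h⟩
    exact ⟨t + 1, by omega, by omega, by rw [Function.iterate_succ_apply, h]⟩
  · rintro ⟨t, h0, ht, h⟩
    rcases t with _ | t
    · omega
    · exact ⟨t, by omega, by rw [← h, Function.iterate_succ_apply]⟩

lemma range_union {p : ℕ} [Fact p.Prime] {k : ℕ} [NeZero k] {π : Equiv.Perm (P1 p)}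
    {l r : Fin k → P1 p} (h : IsTwoCycles π l r) (x : P1 p) :
    (∃ i, l i = x) ∨ (∃ i, r i = x) := by
  classical
  have : Fintype (P1 p) := inferInstanceAs (Fintype (Option (ZMod p)))
  have hcard : Fintype.card (P1 p) = p + 1 := by
    have : Fintype.card (Option (ZMod p)) = p + 1 := by rw [Fintype.card_option, ZMod.card]
    rw [← this]
    exact Fintype.card_congr (Equiv.refl _)
  by_contra hx
  push Not at hx
  obtain ⟨h1, h2⟩ := hx
  have hu : (Finset.univ.image l ∪ Finset.univ.image r) ⊆ (Finset.univ.erase x : Finset (P1 p)) := by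
    intro y hy
    simp only [Finset.mem_union, Finset.mem_image, Finset.mem_univ, true_and] at hy
    refine Finset.mem_erase.mpr ⟨?_, Finset.mem_univ _⟩
    rcases hy with ⟨i, rfl⟩ | ⟨i, rfl⟩
    · exact h1 i
    · exact h2 i
  have hle := Finset.card_le_card hu
  rw [Finset.card_union_of_disjoint, Finset.card_image_of_injective _ h.inj_l,
    Finset.card_image_of_injective _ h.inj_r, Finset.card_erase_of_mem (Finset.mem_univ _),
    Finset.card_univ, Finset.card_univ, hcard, Fintype.card_fin] at hle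
  · have := h.length_eq
    omega
  · rw [Finset.disjoint_left]
    intro y hy hy'
    simp only [Finset.mem_image, Finset.mem_univ, true_and] at hy hy'
    obtain ⟨i, rfl⟩ := hy
    obtain ⟨j, hj⟩ := hy'
    exact h.disj i j hj.symm

section main

variable {F : Type*} [Field F] [Algebra (ZMod 2) F] {α : F} (hα : IsPrimitiveRoot α 89)

/-- singularity from a certificate -/
lemma sing_of_cert {A B x₀ : ℕ} (hA : A < 89) (hx₀ : x₀ ≤ 89)
    (hOK : certOK (orbL A B 45 x₀) = true) {c : P1 89 → ZMod 2} (hc : Good hα c)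
    {π : Equiv.Perm (P1 89)} (hπ : IsNF (A : ZMod 89) (B : ZMod 89) π) {l : Fin 45 → P1 89}
    (hcyc : ∀ i, π (l i) = l (i + 1)) (i₀ : Fin 45) (hi₀ : l i₀ = dec x₀) :
    ¬ IsUnit (block π l c) := by
  have key : ∀ (m : ℕ) (T : List ℕ), (m = 3 ∨ m = 5) →
      ((gQ hα 1 = 1 ∧ T = Ql) ∨ (gQ hα 1 = 0 ∧ T = Nl)) → certs m T (orbL A B 45 x₀) = true →
      ¬ IsUnit (block π l c) := by
    intro m T hm hT hcert
    refine block_singular hcyc c i₀ hm fun a ha => ?_
    have := cert_sound hα hA hx₀ T hT hcert hc a ha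
    refine (Finset.sum_congr rfl fun t _ => ?_).trans this
    rw [iter_sound hA hπ x₀ hx₀, hi₀]
  unfold certOK at hOK
  rw [Bool.and_eq_true, Bool.or_eq_true, Bool.or_eq_true] at hOK
  rcases gQ_one hα with hE | hE
  · rcases hOK.2 with h | h
    · exact key 3 Nl (Or.inl rfl) (Or.inr ⟨hE, rfl⟩) h
    · exact key 5 Nl (Or.inr rfl) (Or.inr ⟨hE, rfl⟩) h
  · rcases hOK.1 with h | h
    · exact key 3 Ql (Or.inl rfl) (Or.inl ⟨hE, rfl⟩) h
    · exact key 5 Ql (Or.inr rfl) (Or.inl ⟨hE, rfl⟩) h

/-- the normal form case, infinity in the first cycle -/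
lemma nf_case {A B : ℕ} (hA : A < 89) (hB : B = 1 ∨ B = 9) {c : P1 89 → ZMod 2}
    (hc : Good hα c) {π : Equiv.Perm (P1 89)} (hπ : IsNF (A : ZMod 89) (B : ZMod 89) π)
    {l r : Fin 45 → P1 89} (h : IsTwoCycles π l r) (i₀ : Fin 45) (hi₀ : l i₀ = ∞) :
    ¬ IsUnit (block π l c) ∧ ¬ IsUnit (block π r c) := by
  have hd : dec 89 = ∞ := by simp [dec]
  have hchk : checkNF A B = true := by
    refine check_all A (List.mem_range.mpr hA) B ?_
    rcases hB with rfl | rfl <;> simp
  have horb : ∀ t, dec ((step A B)^[t] 89) = l (i₀ + Fin.ofNat 45 t) := by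
    intro t
    rw [iter_sound hA hπ 89 le_rfl, hd, ← hi₀, cyc_iter h.cyc_l]
  have h1 : (orbL A B 45 89).tail.contains 89 = false := by
    rw [Bool.eq_false_iff]
    intro hcon
    rw [List.contains_iff_mem, mem_tail_orbL] at hcon
    obtain ⟨t, h0, ht, he⟩ := hcon
    have := horb t
    rw [he, hd, ← hi₀] at this
    have h2 := h.inj_l this
    have h3 : Fin.ofNat 45 t = 0 := by
      have := h2.symm
      simpa using this
    have h4 := congrArg Fin.val h3
    simp [Nat.mod_eq_of_lt ht] at h4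
    omega
  have h2 : (step A B)^[45] 89 = 89 := by
    have h45 := horb 45
    have : Fin.ofNat 45 45 = 0 := by decide
    rw [this, add_zero, hi₀, ← hd] at h45
    exact dec_inj (iter_le hA 89 le_rfl 45) le_rfl h45
  unfold checkNF checkO at hchk
  rw [h1, h2] at hchk
  simp only [beq_self_eq_true, Bool.not_true, Bool.or_self, Bool.false_eq_true, if_false,
    List.any_eq_true, List.mem_range, Bool.and_eq_true, Bool.not_eq_true'] at hchk
  obtain ⟨y, hy, ⟨hy1, hy2⟩, hy3⟩ := hchk
  refine ⟨sing_of_cert hα hA le_rfl hy3 hc hπ h.cyc_l i₀ (by rw [hi₀, hd]), ?_⟩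
  rcases range_union h (dec y) with ⟨i, hi⟩ | ⟨i, hi⟩
  · exfalso
    have hmem : y ∈ orbL A B 45 89 := by
      rw [mem_orbL]
      refine ⟨(i - i₀).val, (i - i₀).isLt, ?_⟩
      have e0 : i₀ + Fin.ofNat 45 (i - i₀).val = i := by
        have : Fin.ofNat 45 (i - i₀).val = i - i₀ := by
          apply Fin.ext
          simp
        rw [this]
        abel
      exact dec_inj (iter_le hA 89 le_rfl _) hy.le (by rw [horb, e0, hi])
    rw [← List.contains_iff_mem] at hmem
    rw [hmem] at hy1
    exact Bool.false_ne_true hy1.symm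
  · exact sing_of_cert hα hA hy.le hy2 hc hπ h.cyc_r i hi

lemma IsTwoCycles.swap {p k : ℕ} [NeZero k] {π : Equiv.Perm (P1 p)} {l r : Fin k → P1 p}
    (h : IsTwoCycles π l r) : IsTwoCycles π r l :=
  ⟨h.length_eq, h.inj_r, h.inj_l, fun i j e => h.disj j i e.symm, h.cyc_r, h.cyc_l⟩

/-- the normal form case -/
lemma nf_case' {A B : ℕ} (hA : A < 89) (hB : B = 1 ∨ B = 9) {c : P1 89 → ZMod 2}
    (hc : Good hα c) {π : Equiv.Perm (P1 89)} (hπ : IsNF (A : ZMod 89) (B : ZMod 89) π)
    {l r : Fin 45 → P1 89} (h : IsTwoCycles π l r) :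
    ¬ IsUnit (block π l c) ∧ ¬ IsUnit (block π r c) := by
  rcases range_union h ∞ with ⟨i, hi⟩ | ⟨i, hi⟩
  · exact nf_case hα hA hB hc hπ h i hi
  · exact (nf_case hα hA hB hc hπ h.swap i hi).symm

lemma good_of_mem {c : P1 89 → ZMod 2} (hc : c ∈ ExtQRCode 89 α) : Good hα c :=
  ⟨fun j hj => hat_code hα hc.1 j hj, hc.2⟩

/-- the affine map `x ↦ s (x + t)` of the projective line -/
def aff (s t : ZMod 89) (hs : s ≠ 0) : Equiv.Perm (P1 89) :=
  Equiv.optionCongr ((Equiv.addRight t).trans (Equiv.mulLeft₀ s hs))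

lemma aff_infty (s t : ZMod 89) (hs : s ≠ 0) : aff s t hs ∞ = ∞ := rfl

lemma aff_coe (s t : ZMod 89) (hs : s ≠ 0) (i : ZMod 89) :
    aff s t hs (i : P1 89) = ((s * (i + t) : ZMod 89) : P1 89) := rfl

lemma good_aff {c : P1 89 → ZMod 2} (hc : Good hα c) (s t : ZMod 89) (hs : s ≠ 0)
    (hs' : IsSquare s) : Good hα (fun x => c ((aff s t hs).symm x)) := by
  have hsymm : ∀ k : ZMod 89, (aff s t hs).symm ((s * (k + t) : ZMod 89) : P1 89) =
      (k : P1 89) := by
    intro k
    rw [Equiv.symm_apply_eq, aff_coe]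
  constructor
  · intro j hj
    have h1 := hc.1 (j * s) ⟨mul_ne_zero hj.1 hs, hj.2.mul hs'⟩
    have h2 : hat hα (fun i => algebraMap (ZMod 2) F (c ((aff s t hs).symm (i : P1 89)))) j =
        psi hα (j * s * t) * hat hα (fun i => algebraMap (ZMod 2) F (c (i : P1 89))) (j * s) := by
      unfold hat
      rw [Finset.mul_sum]
      refine (Fintype.sum_equiv ((Equiv.addRight t).trans (Equiv.mulLeft₀ s hs)) _ _
        fun k => ?_).symm
      have e1 : ((Equiv.addRight t).trans (Equiv.mulLeft₀ s hs)) k = s * (k + t) := rfl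
      rw [e1]
      have e2 : j * (s * (k + t)) = j * s * t + j * s * k := by ring
      rw [e2, AddChar.map_add_eq_mul]
      beta_reduce
      rw [hsymm k]
      ring
    rw [h2, h1, mul_zero]
  · have h1 := hc.2
    have e0 : (aff s t hs).symm ∞ = ∞ := by rw [Equiv.symm_apply_eq, aff_infty]
    beta_reduce
    rw [e0]
    have e1 : ∑ i : ZMod 89, c ((aff s t hs).symm (i : P1 89)) =
        ∑ i : ZMod 89, c (i : P1 89) := by
      refine (Fintype.sum_equiv ((Equiv.addRight t).trans (Equiv.mulLeft₀ s hs)) _ _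
        fun k => ?_).symm
      have e1 : ((Equiv.addRight t).trans (Equiv.mulLeft₀ s hs)) k = s * (k + t) := rfl
      rw [e1, hsymm k]
    rw [e1, h1]

lemma mem_Qs_iff (j : ZMod 89) : (j ≠ 0 ∧ IsSquare j) ↔ j ∈ (Ql.map (Nat.cast : ℕ → ZMod 89)) := by
  rw [← List.mem_toFinset, ← Qs_eq]
  simp [Qs]

lemma exists_scale (b : ZMod 89) (hb : b ≠ 0 ∧ IsSquare b) :
    ∃ s : ZMod 89, s ≠ 0 ∧ IsSquare s ∧
      (s * s * b = ((1 : ℕ) : ZMod 89) ∨ s * s * b = ((9 : ℕ) : ZMod 89)) := by
  have key : ∀ b ∈ Ql, ∃ s ∈ Ql, s * s * b % 89 = 1 ∨ s * s * b % 89 = 9 := by decide +kernel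
  rw [mem_Qs_iff] at hb
  rw [List.mem_map] at hb
  obtain ⟨b', hb', rfl⟩ := hb
  obtain ⟨s, hs, h⟩ := key b' hb'
  have hs2 := (mem_Qs_iff (s : ZMod 89)).mpr (List.mem_map_of_mem hs)
  refine ⟨(s : ZMod 89), hs2.1, hs2.2, ?_⟩
  rcases h with h | h
  · left
    rw [← Nat.cast_mul, ← Nat.cast_mul, ← ZMod.natCast_mod (s * s * b') 89, h]
  · right
    rw [← Nat.cast_mul, ← Nat.cast_mul, ← ZMod.natCast_mod (s * s * b') 89, h]

/-- conjugation -/
def conj (T π : Equiv.Perm (P1 89)) : Equiv.Perm (P1 89) := (T.symm.trans π).trans T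

lemma conj_apply (T π : Equiv.Perm (P1 89)) (x : P1 89) : conj T π (T x) = T (π x) := by
  simp [conj]

lemma twoCycles_conj {T π : Equiv.Perm (P1 89)} {l r : Fin 45 → P1 89} (h : IsTwoCycles π l r) :
    IsTwoCycles (conj T π) (fun i => T (l i)) (fun i => T (r i)) where
  length_eq := h.length_eq
  inj_l := T.injective.comp h.inj_l
  inj_r := T.injective.comp h.inj_r
  disj := fun i j e => h.disj i j (T.injective e)
  cyc_l := fun i => by rw [conj_apply, h.cyc_l]
  cyc_r := fun i => by rw [conj_apply, h.cyc_r]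

lemma block_conj (T π : Equiv.Perm (P1 89)) (l : Fin 45 → P1 89) (c : P1 89 → ZMod 2) :
    block (conj T π) (fun i => T (l i)) (fun x => c (T.symm x)) = block π l c := by
  ext j i
  simp only [block, Matrix.of_apply, act_iter]
  have : ∀ (n : ℕ) (x : P1 89), ((conj T π).symm)^[n] (T x) = T ((π.symm)^[n] x) := by
    intro n
    induction n with
    | zero => intro x; rfl
    | succ n ih =>
      intro x
      rw [Function.iterate_succ_apply, Function.iterate_succ_apply]
      have : (conj T π).symm (T x) = T (π.symm x) := by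
        rw [Equiv.symm_apply_eq, conj_apply, Equiv.apply_symm_apply]
      rw [this, ih]
  rw [this, Equiv.symm_apply_apply]

lemma no_fixed {p k : ℕ} [Fact p.Prime] [NeZero k] (hk : 1 < k) {π : Equiv.Perm (P1 p)}
    {l r : Fin k → P1 p} (h : IsTwoCycles π l r) (x : P1 p) : π x ≠ x := by
  have h1 : ∀ i : Fin k, i + 1 ≠ i := by
    intro i hi
    have : (1 : Fin k) = 0 := by simpa using hi
    have h2 := congrArg Fin.val this
    simp only [Fin.val_one', Fin.val_zero, Nat.mod_eq_of_lt hk] at h2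
    exact one_ne_zero h2
  rcases range_union h x with ⟨i, rfl⟩ | ⟨i, rfl⟩
  · rw [h.cyc_l]
    exact fun e => h1 i (h.inj_l e)
  · rw [h.cyc_r]
    exact fun e => h1 i (h.inj_r e)

/-- the general case -/
lemma general_case {c : P1 89 → ZMod 2} (hc : Good hα c) {π : Equiv.Perm (P1 89)}
    (hπ : InPSL 89 π) {l r : Fin 45 → P1 89} (h : IsTwoCycles π l r) :
    ¬ IsUnit (block π l c) ∧ ¬ IsUnit (block π r c) := by
  obtain ⟨a, b, g, d, hne, hsq, hinf, hfin⟩ := hπ
  have hg : g ≠ 0 := by
    intro hg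
    apply no_fixed (by norm_num) h ∞
    rw [hinf, if_pos hg]
  have hm1 : IsSquare (-1 : ZMod 89) := ⟨34, by decide⟩
  have hb0 : (-(a * d - b * g) / (g * g) : ZMod 89) ≠ 0 ∧
      IsSquare (-(a * d - b * g) / (g * g) : ZMod 89) := by
    refine ⟨div_ne_zero (neg_ne_zero.mpr hne) (mul_ne_zero hg hg), IsSquare.div ?_ ⟨g, rfl⟩⟩
    have := hm1.mul hsq
    simpa using this
  obtain ⟨s, hs, hs', hB⟩ := exists_scale _ hb0
  set T := aff s (d / g) hs with hT
  set A : ZMod 89 := s * (a / g + d / g) with hA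
  have hNF : ∀ B : ℕ, s * s * (-(a * d - b * g) / (g * g)) = ((B : ℕ) : ZMod 89) →
      IsNF ((A.val : ℕ) : ZMod 89) ((B : ℕ) : ZMod 89) (conj T π) := by
    intro B hB
    rw [ZMod.natCast_zmod_val, ← hB]
    refine ⟨?_, ?_, ?_⟩
    · have : (∞ : P1 89) = T ∞ := rfl
      conv_lhs => rw [this, conj_apply, hinf, if_neg hg, hT, aff_coe]
    · have e0 : ((0 : ZMod 89) : P1 89) = T ((-(d / g) : ZMod 89) : P1 89) := by
        rw [hT, aff_coe]
        simp
      rw [e0, conj_apply, hfin, if_pos]
      · rfl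
      · field_simp
        ring
    · intro x hx
      have e0 : (x : P1 89) = T ((x / s - d / g : ZMod 89) : P1 89) := by
        rw [hT, aff_coe]
        congr 1
        field_simp
        ring
      have hden : g * (x / s - d / g) + d = g * x / s := by
        field_simp
        ring
      have hden0 : g * (x / s - d / g) + d ≠ 0 := by
        rw [hden]
        exact div_ne_zero (mul_ne_zero hg hx) hs
      rw [e0, conj_apply, hfin, if_neg hden0, hT, aff_coe]
      congr 1
      rw [hden, hA]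
      field_simp
      ring
  have hG := good_aff hα hc s (d / g) hs hs'
  have hcyc := twoCycles_conj (T := T) h
  have hAlt : A.val < 89 := ZMod.val_lt A
  rcases hB with hB | hB
  · have := nf_case' hα hAlt (Or.inl rfl) hG (hNF 1 hB) hcyc
    rwa [block_conj, block_conj] at this
  · have := nf_case' hα hAlt (Or.inr rfl) hG (hNF 9 hB) hcyc
    rwa [block_conj, block_conj] at this

end main

/-! ### Existence of such a permutation -/

/-- the map `x ↦ 9 + 9 / x` -/
def f₁ (x : P1 89) : P1 89 :=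
  Option.elim (x : Option (ZMod 89)) ((9 : ZMod 89) : P1 89)
    (fun i => if i = 0 then ∞ else ((9 + 9 / i : ZMod 89) : P1 89))

/-- its inverse `x ↦ 9 / (x - 9)` -/
def f₂ (x : P1 89) : P1 89 :=
  Option.elim (x : Option (ZMod 89)) ((0 : ZMod 89) : P1 89)
    (fun i => if i = 9 then ∞ else ((9 / (i - 9) : ZMod 89) : P1 89))

lemma nine_ne : (9 : ZMod 89) ≠ 0 := by decide

lemma f₁_inf : f₁ ∞ = ((9 : ZMod 89) : P1 89) := rfl
lemma f₁_coe (i : ZMod 89) :
    f₁ (i : P1 89) = if i = 0 then ∞ else ((9 + 9 / i : ZMod 89) : P1 89) := rfl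
lemma f₂_inf : f₂ ∞ = ((0 : ZMod 89) : P1 89) := rfl
lemma f₂_coe (i : ZMod 89) :
    f₂ (i : P1 89) = if i = 9 then ∞ else ((9 / (i - 9) : ZMod 89) : P1 89) := rfl

/-- the permutation `x ↦ 9 + 9 / x` -/
def π₁ : Equiv.Perm (P1 89) where
  toFun := f₁
  invFun := f₂
  left_inv := by
    intro x
    induction x using OnePoint.rec with
    | infty => rw [f₁_inf, f₂_coe, if_pos rfl]
    | coe i =>
      rw [f₁_coe]
      by_cases h : i = 0
      · rw [if_pos h, f₂_inf, h]
      · rw [if_neg h, f₂_coe]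
        have h1 : (9 + 9 / i : ZMod 89) ≠ 9 := by
          intro h2
          have : (9 / i : ZMod 89) = 0 := by simpa using h2
          exact div_ne_zero nine_ne h this
        rw [if_neg h1]
        congr 1
        have := nine_ne
        field_simp
        ring
  right_inv := by
    intro x
    induction x using OnePoint.rec with
    | infty => rw [f₂_inf, f₁_coe, if_pos rfl]
    | coe i =>
      rw [f₂_coe]
      by_cases h : i = 9
      · rw [if_pos h, f₁_inf, h]
      · have h1 : i - 9 ≠ 0 := sub_ne_zero.mpr h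
        rw [if_neg h, f₁_coe, if_neg (div_ne_zero nine_ne h1)]
        congr 1
        have := nine_ne
        field_simp
        ring

lemma π₁_inf : π₁ ∞ = ((9 : ZMod 89) : P1 89) := rfl
lemma π₁_coe (i : ZMod 89) :
    π₁ (i : P1 89) = if i = 0 then ∞ else ((9 + 9 / i : ZMod 89) : P1 89) := rfl

lemma π₁_nf : IsNF ((9 : ℕ) : ZMod 89) ((9 : ℕ) : ZMod 89) π₁ := by
  refine ⟨π₁_inf, ?_, ?_⟩
  · rw [π₁_coe, if_pos rfl]
  · intro i hi
    rw [π₁_coe, if_neg hi]
    norm_num

lemma π₁_psl : InPSL 89 π₁ := by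
  refine ⟨9, 9, 1, 0, by decide, ⟨13, by decide⟩, ?_, ?_⟩
  · rw [if_neg one_ne_zero, π₁_inf]
    norm_num
  · intro i
    rw [π₁_coe]
    by_cases h : i = 0
    · rw [if_pos h, if_pos (by simp [h])]
    · rw [if_neg h, if_neg (by simpa using h)]
      have h' : i ≠ 0 := h
      have e : (9 + 9 / i : ZMod 89) = (9 * i + 9) / (1 * i + 0) := by
        rw [one_mul, add_zero, add_div, mul_div_assoc, div_self h', mul_one]
      rw [e]

/-- the first cycle -/
def l₁ (i : Fin 45) : P1 89 := dec ((step 9 9)^[i.val] 89)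

/-- the second cycle -/
def r₁ (i : Fin 45) : P1 89 := dec ((step 9 9)^[i.val] 2)

lemma cyc_aux (x : ℕ) (hx : x ≤ 89) (h45 : (step 9 9)^[45] x = x) (i : Fin 45) :
    π₁ (dec ((step 9 9)^[i.val] x)) = dec ((step 9 9)^[(i + 1).val] x) := by
  rw [← step_sound (by norm_num) π₁_nf _ (iter_le (by norm_num) x hx _),
    ← Function.iterate_succ_apply' (step 9 9) i.val x]
  have e : (step 9 9)^[i.val.succ] x = (step 9 9)^[(i + 1).val] x := by
    by_cases h : i.val + 1 < 45
    · rw [Fin.val_add_one_of_lt' h]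
    · have h1 : i.val = 44 := by omega
      have h2 : (i + 1).val = 0 := by
        have : i = 44 := Fin.ext h1
        rw [this]; rfl
      have h3 : i.val.succ = 45 := by omega
      rw [h2, h3, h45, Function.iterate_zero_apply]
  rw [e]

lemma two₁ : IsTwoCycles π₁ l₁ r₁ where
  length_eq := rfl
  inj_l := by
    intro i j h
    have h' := dec_inj (iter_le (by norm_num) 89 le_rfl _) (iter_le (by norm_num) 89 le_rfl _) h
    have key : ∀ i j : Fin 45, (step 9 9)^[i.val] 89 = (step 9 9)^[j.val] 89 → i = j := by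
      decide +kernel
    exact key i j h'
  inj_r := by
    intro i j h
    have h' := dec_inj (iter_le (by norm_num) 2 (by norm_num) _)
      (iter_le (by norm_num) 2 (by norm_num) _) h
    have key : ∀ i j : Fin 45, (step 9 9)^[i.val] 2 = (step 9 9)^[j.val] 2 → i = j := by
      decide +kernel
    exact key i j h'
  disj := by
    intro i j h
    have h' := dec_inj (iter_le (by norm_num) 89 le_rfl _) (iter_le (by norm_num) 2 (by norm_num) _) h
    have key : ∀ i j : Fin 45, (step 9 9)^[i.val] 89 ≠ (step 9 9)^[j.val] 2 := by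
      decide +kernel
    exact key i j h'
  cyc_l := fun i => cyc_aux 89 le_rfl (by decide +kernel) i
  cyc_r := fun i => cyc_aux 2 (by norm_num) (by decide +kernel) i

universe u

/-- For `p = 89`: elements `π` of `PSL₂(89)` that are products of two disjoint cycles of length
`45` exist, and for every such `π` and every codeword `c` of the extended binary quadratic
residue code (for any choice of the primitive root `α`) both circulants `L` and `R` are
singular over `GF(2)`. -/
theorem result :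
    (∃ (π : Equiv.Perm (P1 89)) (l r : Fin 45 → P1 89), InPSL 89 π ∧ IsTwoCycles π l r) ∧
    ∀ (F : Type u) [Field F] [Algebra (ZMod 2) F] (α : F), IsPrimitiveRoot α 89 →
      ∀ (π : Equiv.Perm (P1 89)) (l r : Fin 45 → P1 89), InPSL 89 π → IsTwoCycles π l r →
        ∀ c ∈ ExtQRCode 89 α, ¬ IsUnit (block π l c) ∧ ¬ IsUnit (block π r c) :=
  ⟨⟨π₁, l₁, r₁, π₁_psl, two₁⟩, fun _ _ _ _ hα _ _ _ hπ h _ hc =>
    general_case hα (good_of_mem hα hc) hπ h⟩

end Pool.Agent.H78.Old.QR89
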