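import Mathlib
import Pool.Agent.H78.TateNeat

set_option autoImplicit false

namespace Pool.Agent.Results.MP_0fca13_ag.UniqueSlope

/-- `y` is a Tate class: for some `N ≥ 1` and some `m` the `N`-th iterate of `Φ` multiplies `y` by
`q ^ (N * m)`. -/
def IsTate {C A : Type*} [Field C] [Ring A] [Algebra C A] (q : ℕ) (Φ : A →ₐ[C] A) (y : A) : Prop :=
  ∃ N m : ℕ, 1 ≤ N ∧ (⇑Φ)^[N] y = (q : C) ^ (N * m) • y

/-- `π` generates the number field `E`, all its complex absolute values are `q ^ (w / 2)`, `v` is an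
additive valuation on `K` with `v q = 1`, and `sl φ = v (φ π)` are the slopes of `π`.  For some prime
`r` the number `w / 2 - sl φ₀` is non-zero and has strictly larger `r`-adic absolute value than all the
numbers `w / 2 - sl φ` for `φ` different from `φ₀` and from its conjugate (the embedding `φ` with
`φ π * φ₀ π = q ^ w`).  The operator `F` on `W` is diagonalisable, each of its eigenvalues is a
conjugate of `π` or becomes `± q ^ (w M / 2)` in some power `M ≥ 1`.  The algebra `A` is generated by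
`ι W`, whose elements commute up to the scalar `s`, and a set `Z` of central elements, each an
eigenvector of the endomorphism `Φ` of `A` for a power of `q`; `Φ` extends `F`.  Then all Tate classes
in `A` are polynomials in elements of `Z` and Tate classes of the form `ι e` and `ι e * ι e'`. -/
theorem result
    (q w : ℕ)
    (E : Type*) [Field E] [NumberField E] (π : E) (hgen : IntermediateField.adjoin ℚ {π} = ⊤)
    (habs : ∀ φ : E →+* ℂ, ‖φ π‖ ^ 2 = (q : ℝ) ^ w)
    (K : Type*) [Field K] [CharZero K] [IsAlgClosed K]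
    (v : AddValuation K (WithTop ℚ)) (hv : v (q : K) = 1)
    (sl : (E →+* K) → ℚ) (hsl : ∀ φ, v (φ π) = ((sl φ : ℚ) : WithTop ℚ))
    (r : ℕ) (hr : r.Prime) (φ₀ : E →+* K) (hφ₀ : sl φ₀ ≠ (w : ℚ) / 2)
    (hiso : ∀ φ : E →+* K, φ ≠ φ₀ → φ π * φ₀ π ≠ (q : K) ^ w →
      padicNorm r ((w : ℚ) / 2 - sl φ) < padicNorm r ((w : ℚ) / 2 - sl φ₀))
    (C : Type*) [Field C] [CharZero C] [IsAlgClosed C]
    (W : Type*) [AddCommGroup W] [Module C W] (F : W →ₗ[C] W)
    (hF : Submodule.span C {e : W | ∃ α : C, F e = α • e ∧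
      ((∃ φ : E →+* C, α = φ π) ∨ ∃ M : ℕ, 1 ≤ M ∧ α ^ (2 * M) = (q : C) ^ (w * M))} = ⊤)
    (A : Type*) [Ring A] [Algebra C A] (ι : W →ₗ[C] A)
    (s : C) (hcomm : ∀ x y, ι x * ι y = s • (ι y * ι x))
    (Φ : A →ₐ[C] A) (hΦ : ∀ x, Φ (ι x) = ι (F x))
    (Z : Set A) (hZ : ∀ z ∈ Z, (∀ y, z * y = y * z) ∧ ∃ i : ℕ, Φ z = (q : C) ^ i • z)
    (hadj : Algebra.adjoin C (Set.range ι ∪ Z) = ⊤)
    (x : A) (hx : IsTate q Φ x) :
    x ∈ Algebra.adjoin C (Z ∪ {y | IsTate q Φ y ∧ ∃ e e' : W, y = ι e ∨ y = ι e * ι e'}) :=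
  Pool.Agent.H78.TateNeat.final q w E π hgen habs K v hv sl hsl r hr φ₀ hφ₀ hiso C W F hF A ι s hcomm
    Φ hΦ Z hZ hadj x hx

end Pool.Agent.Results.MP_0fca13_ag.UniqueSlope
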